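import Pool.Agent.H31.DP.Targets

/-!
# Project DP (MP_c59857_nt), row LB: the comparison of the twisted sum with the correlations
over the multiples of `Q`
-/

set_option autoImplicit false

open Finset

namespace Pool.Agent.H77.DP

open Pool.Agent.H31.DP

theorem ee_add (x y : ℝ) : ee (x + y) = ee x * ee y := by
  unfold ee
  rw [← Complex.exp_add]
  congr 1
  push_cast
  ring

theorem ee_conj (x : ℝ) : (starRingEnd ℂ) (ee x) = ee (-x) := by
  unfold ee
  rw [← Complex.exp_conj]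
  congr 1
  rw [map_mul, map_mul, map_mul, Complex.conj_I, Complex.conj_ofReal, Complex.conj_ofReal,
    Complex.conj_ofNat]
  push_cast
  ring

theorem ee_zero : ee 0 = 1 := by
  unfold ee
  simp

theorem norm_ee (x : ℝ) : ‖ee x‖ = 1 := by
  unfold ee
  have h : (2 * Real.pi * Complex.I * x : ℂ) = ((2 * Real.pi * x : ℝ) : ℂ) * Complex.I := by
    push_cast
    ring
  rw [h, Complex.norm_exp_ofReal_mul_I]

/-- the number of multiples of `p` in `[-M, M]` -/
theorem card_mul_le (p M : ℕ) (hp : 0 < p) (hM : p ≤ M) :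
    (p : ℝ) * ((mul p M).card : ℝ) ≤ 3 * M := by
  have hp' : (0 : ℤ) < p := by exact_mod_cast hp
  have h1 : (mul p M).card ≤ (Finset.Icc (-((M / p : ℕ) : ℤ)) ((M / p : ℕ) : ℤ)).card := by
    apply Finset.card_le_card_of_injOn (fun s : ℤ => s / (p : ℤ))
    · intro s hs
      have hs' := Finset.mem_coe.1 hs
      unfold mul at hs'
      rw [Finset.mem_filter, Finset.mem_Icc] at hs'
      obtain ⟨⟨h2, h3⟩, k, rfl⟩ := hs'
      have e : (p : ℤ) * k / (p : ℤ) = k := Int.mul_ediv_cancel_left k hp'.ne'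
      apply Finset.mem_coe.2
      show (p : ℤ) * k / (p : ℤ) ∈ _
      rw [e, Finset.mem_Icc]
      push_cast
      constructor
      · have : -k ≤ (M : ℤ) / p := by
          rw [Int.le_ediv_iff_mul_le hp']
          nlinarith
        linarith
      · rw [Int.le_ediv_iff_mul_le hp']
        nlinarith
    · intro s hs t ht hst
      have hs' := Finset.mem_coe.1 hs
      have ht' := Finset.mem_coe.1 ht
      unfold mul at hs' ht'
      rw [Finset.mem_filter] at hs' ht'
      obtain ⟨-, k, rfl⟩ := hs'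
      obtain ⟨-, k', rfl⟩ := ht'
      have e : (p : ℤ) * k / (p : ℤ) = k := Int.mul_ediv_cancel_left k hp'.ne'
      have e' : (p : ℤ) * k' / (p : ℤ) = k' := Int.mul_ediv_cancel_left k' hp'.ne'
      have : (p : ℤ) * k / (p : ℤ) = (p : ℤ) * k' / (p : ℤ) := hst
      rw [e, e'] at this
      rw [this]
  rw [Int.card_Icc] at h1
  have h2 : (mul p M).card ≤ 2 * (M / p) + 1 := by
    refine h1.trans ?_
    omega
  have h3 : p * (mul p M).card ≤ 3 * M := by
    have h4 : p * (M / p) ≤ M := Nat.mul_div_le M p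
    calc p * (mul p M).card ≤ p * (2 * (M / p) + 1) := Nat.mul_le_mul_left _ h2
      _ = 2 * (p * (M / p)) + p := by ring
      _ ≤ 2 * M + M := by omega
      _ = 3 * M := by ring
  exact_mod_cast h3

/-- the correlations of the twisted function -/
theorem corr_tw {l : ℕ} (h : Fin l → ℕ) (p M : ℕ) (θ : ℝ) (s : ℤ) :
    corr (fun y => ((FF h p y : ℝ) : ℂ) * ee (y * (θ / p))) M s =
      ee (s * (θ / p)) * ((CA h p M s : ℝ) : ℂ) := by
  unfold corr CA
  push_cast
  rw [Finset.mul_sum]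
  refine Finset.sum_congr rfl fun y _ => ?_
  rw [map_mul, Complex.conj_ofReal, ee_conj]
  have e : ee (((y + s : ℤ) : ℝ) * (θ / p)) = ee (y * (θ / p)) * ee (s * (θ / p)) := by
    rw [← ee_add]
    congr 1
    push_cast
    ring
  have e2 : ee (-(y * (θ / p))) * ee (y * (θ / p)) = 1 := by
    rw [← ee_add, neg_add_cancel, ee_zero]
  rw [show (((y : ℤ) : ℝ) + ((s : ℤ) : ℝ)) = ((y + s : ℤ) : ℝ) by push_cast; ring]
  rw [e]
  linear_combination (((FF h p y : ℝ) : ℂ) * ((FF h p (y + s) : ℝ) : ℂ) * ee (s * (θ / p))) * e2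

/-- the correlations over the multiples of `D` are a sum of squares -/
theorem rc_eq (hKA : StatementKA) {l : ℕ} (h : Fin l → ℕ) (p D M : ℕ) (θ : ℝ) (hD : 0 < D) :
    RC h p D M θ = ((∑ r ∈ Finset.range D,
      ‖cls (fun y => ((FF h p y : ℝ) : ℂ) * ee (y * (θ / p))) M D r‖ ^ 2 : ℝ) : ℂ) := by
  rw [hKA _ M D hD]
  unfold RC
  exact Finset.sum_congr rfl fun s _ => (corr_tw h p M θ s).symm

theorem tt_eq {l : ℕ} (h : Fin l → ℕ) (p M : ℕ) (s : ℤ) :
    (p : ℝ) * (∑ y ∈ (IM M s).filter (fun y => (p : ℤ) ∣ y), FF h p y * FF h p (y + s)) =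
      CA h p M s + TT h p M s := by
  unfold CA TT bal ind
  rw [Finset.sum_filter, Finset.mul_sum, ← Finset.sum_add_distrib]
  refine Finset.sum_congr rfl fun y _ => ?_
  by_cases hy : (p : ℤ) ∣ y
  · rw [if_pos hy, if_pos hy]
    ring
  · rw [if_neg hy, if_neg hy]
    ring

theorem pf_LB (hSQ : StatementSQ) (hKA : StatementKA) (hKB : StatementKB) : StatementLB := by
  intro l h p Q M θ hp hpQ hQ hM
  have hp0 : 0 < p := hp.pos
  have hp1 : (0 : ℝ) < p := by exact_mod_cast hp0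
  -- the error term
  set E : ℂ := ∑ s ∈ mul p M, ee (s * (θ / p)) * ((TT h p M s : ℝ) : ℂ) with hE
  have h1 : ((p * ‖Sg h (M / p) θ‖ ^ 2 : ℝ) : ℂ) = RC h p p M θ + E := by
    rw [Complex.ofReal_mul, hSQ l h p M θ hp, hE]
    unfold RC
    rw [Finset.mul_sum, ← Finset.sum_add_distrib]
    refine Finset.sum_congr rfl fun s _ => ?_
    have h2 := congrArg (fun x : ℝ => (x : ℂ)) (tt_eq h p M s)
    simp only [Complex.ofReal_mul, Complex.ofReal_add] at h2
    linear_combination ee (s * (θ / p)) * h2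
  have h2 : (p : ℝ) * ‖Sg h (M / p) θ‖ ^ 2 = (RC h p p M θ).re + E.re := by
    have := congrArg Complex.re h1
    rwa [Complex.ofReal_re, Complex.add_re] at this
  -- the main term
  have h3 : (p : ℝ) * (RC h p p M θ).re ≤ Q * (RC h p Q M θ).re := by
    rw [rc_eq hKA h p p M θ hp0, rc_eq hKA h p Q M θ hQ, Complex.ofReal_re, Complex.ofReal_re]
    have h4 := hKB (fun y => ((FF h p y : ℝ) : ℂ) * ee (y * (θ / p))) M p Q hQ hpQ
    have h5 := mul_le_mul_of_nonneg_left h4 hp1.le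
    refine h5.trans (le_of_eq ?_)
    rw [← mul_assoc, mul_div_cancel₀ _ hp1.ne']
  -- the error term
  have h6 : ‖E‖ ≤ ∑ s ∈ mul p M, |TT h p M s| := by
    refine (norm_sum_le _ _).trans (Finset.sum_le_sum fun s _ => ?_)
    rw [norm_mul, norm_ee, one_mul, Complex.norm_real, Real.norm_eq_abs]
  have h7 : (∑ s ∈ mul p M, |TT h p M s|) ^ 2 ≤
      ((mul p M).card : ℝ) * ∑ s ∈ mul p M, (TT h p M s) ^ 2 := by
    have := sq_sum_le_card_mul_sum_sq (s := mul p M) (f := fun s => |TT h p M s|)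
    simpa [sq_abs] using this
  have h8 : (p : ℝ) * ‖E‖ ≤ Real.sqrt (3 * M * DD h p M) := by
    apply Real.le_sqrt_of_sq_le
    have h9 : 0 ≤ ∑ s ∈ mul p M, (TT h p M s) ^ 2 := Finset.sum_nonneg fun s _ => sq_nonneg _
    have h10 : ‖E‖ ^ 2 ≤ ((mul p M).card : ℝ) * ∑ s ∈ mul p M, (TT h p M s) ^ 2 :=
      (pow_le_pow_left₀ (norm_nonneg _) h6 2).trans h7
    calc ((p : ℝ) * ‖E‖) ^ 2 = (p : ℝ) ^ 2 * ‖E‖ ^ 2 := by ring
      _ ≤ (p : ℝ) ^ 2 * (((mul p M).card : ℝ) * ∑ s ∈ mul p M, (TT h p M s) ^ 2) :=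
        mul_le_mul_of_nonneg_left h10 (by positivity)
      _ = ((p : ℝ) * ((mul p M).card : ℝ)) * ((p : ℝ) * ∑ s ∈ mul p M, (TT h p M s) ^ 2) := by
        ring
      _ ≤ (3 * M) * ((p : ℝ) * ∑ s ∈ mul p M, (TT h p M s) ^ 2) :=
        mul_le_mul_of_nonneg_right (card_mul_le p M hp0 hM) (by positivity)
      _ = 3 * M * DD h p M := by
        unfold DD
        ring
  have h11 : E.re ≤ ‖E‖ := Complex.re_le_norm E
  calc (p : ℝ) ^ 2 * ‖Sg h (M / p) θ‖ ^ 2 = p * (p * ‖Sg h (M / p) θ‖ ^ 2) := by ring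
    _ = p * (RC h p p M θ).re + p * E.re := by rw [h2]; ring
    _ ≤ Q * (RC h p Q M θ).re + Real.sqrt (3 * M * DD h p M) := by
      have := mul_le_mul_of_nonneg_left h11 hp1.le
      linarith

end Pool.Agent.H77.DP
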